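import Pool.Agent.Lib.MP_fb3619_al.Iface

/-! BILB. -/

universe u

namespace Pool.Agent.FourGp.H57

open Equiv Pool.Agent.FourGp

theorem bilb (h1 : DetS.{u}) (h2 : TcrsS.{u}) : BilbS.{u} := by
  intro P g h a b c w₁ w₂ n m γ φ φ' hab hbc hac hγ hφ hφ' y hy
  obtain ⟨ha, hT, hi⟩ := hφ
  obtain ⟨ha', hT', hi'⟩ := hφ'
  have ga : γ.1 a = a := hγ.pts a (h.perp_symm _ _ hab)
  have gw₁ : γ.1 w₁ = w₁ := hγ.pts w₁ ha.xw₁
  have gw₂ : γ.1 w₂ = w₂ := hγ.pts w₂ ha.xw₂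
  have hγi := h.tt_inv hγ
  have gia : γ⁻¹.1 a = a := hγi.pts a (h.perp_symm _ _ hab)
  have ii : ∀ z, γ.1 (γ⁻¹.1 z) = z := fun z => γ.1.apply_symm_apply z
  have jj : ∀ z, γ.2 (γ⁻¹.2 z) = z := fun z => γ.2.apply_symm_apply z
  -- the conjugate
  have hC : g.TT a b (γ * φ * γ⁻¹) := by
    refine ⟨h.col_mul (h.col_mul hγ.toCol hT.toCol) hγi.toCol, fun z hz => ?_, fun l hl => ?_⟩
    · change γ.1 (φ.1 (γ⁻¹.1 z)) = z
      rw [hγi.pts z hz, hT.pts z hz, hγ.pts z hz]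
    · change γ.2 (φ.2 (γ⁻¹.2 l)) = l
      have k : g.perp a (γ⁻¹.2 l) := by
        have := (hγi.inc a l).1 hl
        rwa [gia] at this
      rw [hT.lns _ k, jj]
  have key := h1 P g h a b (γ.2 n) (γ * φ * γ⁻¹) φ' hab hC.tw hT'.tw ha'.vn ha'.sn ?_ y hy
  · rw [← key]
    change φ.1 y = γ.1 (φ.1 (γ⁻¹.1 y))
    have hy' : g.st (γ⁻¹.1 y) b := h.st_trans _ _ _ (h.st_symm _ _ (hγi.tp y)) hy
    have k := h2 P g h a c b φ γ hab (h.perp_symm _ _ hbc) (h.perp_st _ _ hac) hT hγ _ hy'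
    rw [← k, ii]
  · intro z hz hzn
    change γ.1 (φ.1 (γ⁻¹.1 z)) = φ'.1 z
    have hz' : g.st (γ⁻¹.1 z) b := h.st_trans _ _ _ (h.st_symm _ _ (hγi.tp z)) hz
    have hzn' : g.perp (γ⁻¹.1 z) n := by
      rw [hγ.inc, ii]
      exact hzn
    rw [hi _ hz' hzn', hi' z hz hzn]
    obtain ⟨t, ht, hs⟩ := h.label
    have i1 := h.perp_st _ _ ha.vx
    have i2 := h.perp_st _ _ ha.xw₁
    have i3 := h.perp_st _ _ ha.xw₂
    have i4 := h.perp_st _ _ ha.vn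
    have i5 := h.perp_st _ _ ha.vm
    have i6 := ha.sw₁
    have i7 := ha.sw₂
    have i8 := ha.sn
    have i9 := ha.sm
    have t1 := ht a; have t2 := ht b; have t3 := ht w₁; have t4 := ht w₂; have t5 := ht n
    have t6 := ht m
    have e1 : ¬ g.st w₁ (γ⁻¹.1 z) := by rw [hs] at *; omega
    have e2 : g.st m w₁ := by rw [hs] at *; omega
    have e3 := h.pr_st e1 e2
    have e4 : ¬ g.st w₂ (g.pr w₁ m (γ⁻¹.1 z)) := by rw [hs] at *; omega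
    have e5 : g.st n w₂ := by rw [hs] at *; omega
    unfold Inc.fm
    rw [h.col_pr hγ.toCol e4 e5, h.col_pr hγ.toCol e1 e2, gw₁, gw₂, ii]

end Pool.Agent.FourGp.H57
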