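import Pool.Agent.Lib.MP_fb3619_al.Iface

/-! CLD. -/

universe u

namespace Pool.Agent.FourGp.H57

open Equiv Pool.Agent.FourGp

theorem cld (h1 : ProjS.{u}) : CldS.{u} := by
  intro P g h hF a b c z hab hbc hac haz
  obtain ⟨t, ht, hs⟩ := h.label
  have i1 := h.perp_st _ _ hab
  have i2 := h.perp_st _ _ hbc
  have i3 := h.perp_st _ _ hac
  have t1 := ht a; have t2 := ht b; have t3 := ht c; have t4 := ht z
  have ca : ¬ g.st c a := by rw [hs] at *; omega
  have ba : ¬ g.st b a := by rw [hs] at *; omega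
  have cz : ¬ g.st c z := by rw [hs] at *; omega
  have bz : ¬ g.st b z := by rw [hs] at *; omega
  have pj := (h1 P g h hF).1
  constructor
  · intro e
    constructor
    · have k := pj c c a z e ca (h.st_refl c)
      rwa [h.pr_self ca (h.st_refl c) hac] at k
    · have k := pj b b a z e ba (h.st_refl b)
      rwa [h.pr_self ba (h.st_refl b) hab] at k
  · rintro ⟨ec, eb⟩
    have zc : ¬ g.st z c := fun e => cz (h.st_symm _ _ e)
    have zb : ¬ g.st z b := fun e => bz (h.st_symm _ _ e)
    have p1 := h.cr_l _ _ zc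
    have p2 := h.cr_r _ _ zc
    have p3 := h.cr_st_l zc
    have p4 := h.cr_st_r zc
    have q1 := h.cr_l _ _ zb
    have q2 := h.cr_r _ _ zb
    have q3 := h.cr_st_l zb
    have q4 := h.cr_st_r zb
    have t5 := ht (g.cr z c); have t6 := ht (g.cr z b)
    have e1 : ¬ g.st (g.cr z c) (g.cr z b) := by rw [hs] at *; omega
    have e2 : g.st (g.cr z b) c := by rw [hs] at *; omega
    have hz : z = g.cr (g.cr z c) (g.cr z b) :=
      h.uniq _ _ _ e1 (h.perp_symm _ _ p1) (h.perp_symm _ _ q1)
    have r1 := h.cr_pr cz (h.st_refl c)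
    have r2 : g.pr c (g.cr z b) (g.pr c c z) = z := by
      conv_lhs => unfold Inc.pr
      have r3 : g.cr (g.cr (g.cr z c) c) c = g.cr z c := r1
      rw [r3, ← hz]
    have s1 := h.pr_st cz (h.st_refl c)
    have e3 : ¬ g.st c (g.pr c c z) := by rw [hs] at *; omega
    have k := pj c (g.cr z b) (g.pr c c z) a (Inc.IsGeo.sim_symm ec) e3 e2
    rw [r2] at k
    have ab : b = g.cr a c := h.uniq _ _ _ i3 hab (h.perp_symm _ _ hbc)
    have e4 : ¬ g.st b (g.cr z b) := fun e => q4 (h.st_symm _ _ e)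
    have r4 : g.pr c (g.cr z b) a = g.pr b b z := by
      unfold Inc.pr
      rw [← ab, h.cr_comm e4]
    rw [r4] at k
    exact Inc.IsGeo.sim_trans eb (Inc.IsGeo.sim_symm k)

end Pool.Agent.FourGp.H57
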