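import Pool.Agent.Lib.MP_fb3619_al.Iface

/-! DET. -/

universe u

namespace Pool.Agent.FourGp.H57

open Equiv Pool.Agent.FourGp

theorem det : DetS.{u} := by
  intro P g h v x n φ ψ hvx hφ hψ hvn hnx hag y hy
  obtain ⟨t, ht, hs⟩ := h.label
  have i1 := h.perp_st _ _ hvx
  have i2 := h.perp_st _ _ hvn
  have c1 := h.cr_l _ _ i1
  have c2 := h.cr_r _ _ i1
  have c3 := h.cr_st_l i1
  have c4 := h.cr_st_r i1
  set w := g.cr v x with hw
  have iy : ¬ g.st y v := by
    rw [hs] at *; omega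
  have d1 := h.cr_l _ _ iy
  have d2 := h.cr_r _ _ iy
  have d3 := h.cr_st_l iy
  have d4 := h.cr_st_r iy
  set m := g.cr y v with hm
  have t1 := ht v; have t2 := ht x; have t3 := ht n; have t4 := ht w; have t5 := ht m
  have t6 := ht y
  have e1 : ¬ g.st w y := by rw [hs] at *; omega
  have e2 : g.st n w := by rw [hs] at *; omega
  have e3 : g.st m w := by rw [hs] at *; omega
  have e4 : ¬ g.st m x := by rw [hs] at *; omega
  have e5 : ¬ g.st w v := by rw [hs] at *; omega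
  have k1 := h.pr_perp e1 e2
  have k2 := h.pr_st e1 e2
  have k3 := h.pr_pr (n := m) e1 e2
  have k4 := h.pr_self e1 e3 d1
  have k5 : g.st (g.pr w n y) x := h.st_trans _ _ _ k2 hy
  have k6 : y = g.pr w m (g.pr w n y) := by rw [k3, k4]
  have f1 := h.tw_pr hφ hvx c2 e5 d2 e4 k5
  have f2 := h.tw_pr hψ hvx c2 e5 d2 e4 k5
  rw [← k6] at f1 f2
  rw [f1, f2, hag _ k5 k1]

end Pool.Agent.FourGp.H57
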