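import Pool.Agent.Lib.MP_fb3619_al.Iface

/-! LEMF: Lemma F from TAU. -/

universe u

namespace Pool.Agent.FourGp.H57

open Equiv Pool.Agent.FourGp

section geo

variable {P : Type u} {g : Inc P} (h : g.IsGeo)

include h

/-- From `f(u, w; u, m)` and `f(u, w; u, n)` to `f(u, w; n, m)`. -/
theorem lem1 {v x u w n m : P} {A B : Perm P × Perm P} (hxu : g.perp x u)
    (hvu : g.perp v u) (hA : g.Ind v x u w u m A) (hB : g.Ind v x u w u n B) :
    g.Ind v x u w n m (A * B⁻¹) := by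
  obtain ⟨aA, tA, iA⟩ := hA
  obtain ⟨aB, tB, iB⟩ := hB
  refine ⟨⟨aA.vx, hxu, aA.xw₂, aB.vm, aA.vm, aA.sw₁, aA.sw₂, aB.sm, aA.sm⟩,
    h.tt_mul tA (h.tt_inv tB), fun y hy hyn => ?_⟩
  obtain ⟨t, ht, hs⟩ := h.label
  have i1 := h.perp_st _ _ aA.vx
  have i2 := h.perp_st _ _ hxu
  have i3 := h.perp_st _ _ hvu
  have i4 := h.perp_st _ _ aA.xw₂
  have i5 := h.perp_st _ _ aA.vm
  have i6 := h.perp_st _ _ aB.vm
  have j1 := aA.sw₂
  have j2 := aA.sm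
  have j3 := aB.sm
  have t1 := ht v; have t2 := ht x; have t3 := ht u; have t4 := ht w; have t5 := ht n
  have t6 := ht m; have t7 := ht y
  have uy : ¬ g.st u y := by rw [hs] at *; omega
  have wy : ¬ g.st w y := by rw [hs] at *; omega
  have nu : g.st n u := by rw [hs] at *; omega
  have nw : g.st n w := by rw [hs] at *; omega
  have mu : g.st m u := by rw [hs] at *; omega
  have uw : g.st u w := by rw [hs] at *; omega
  have uu : g.st u u := h.st_refl u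
  have s0 := h.pr_st uy uu
  have hy0 : g.st (g.pr u u y) x := h.st_trans _ _ _ s0 hy
  have py0 := h.pr_perp uy uu
  have uy0 : ¬ g.st u (g.pr u u y) := by rw [hs] at *; omega
  have wy0 : ¬ g.st w (g.pr u u y) := by rw [hs] at *; omega
  -- values of `B` and `A` on `y₀ = pr u u y`
  have B0 : B.1 (g.pr u u y) = g.pr w u y := by
    rw [iB _ hy0 py0]
    unfold Inc.fm
    rw [h.pr_pr uy uu, h.pr_self uy nu hyn]
  have A0 : A.1 (g.pr u u y) = g.pr w u (g.pr u m y) := by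
    rw [iA _ hy0 py0]
    unfold Inc.fm
    rw [h.pr_pr uy uu]
  have B1 : B.1 (g.pr w n (g.pr u u y)) = y := by
    rw [h.tw_pr tB.tw aA.vx aA.xw₂ aA.sw₂ aB.vm aB.sm hy0, B0, h.pr_pr wy uw,
      h.pr_self wy nw hyn]
  have B2 : B⁻¹.1 y = g.pr w n (g.pr u u y) := by
    rw [← B1]
    have e : B⁻¹.1 (B.1 (g.pr w n (g.pr u u y))) = g.pr w n (g.pr u u y) :=
      B.1.symm_apply_apply _
    rw [e, B1]
  change A.1 (B⁻¹.1 y) = g.fm u w n m y
  have s1 := h.pr_st uy mu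
  have wm : ¬ g.st w (g.pr u m y) := by rw [hs] at *; omega
  rw [B2, h.tw_pr tA.tw aA.vx aA.xw₂ aA.sw₂ aB.vm aB.sm hy0, A0, h.pr_pr wm uw]
  rfl

/-- From `f(u, w₁; n, m)` and `f(u, w₂; n, m)` to `f(w₁, w₂; n, m)`. -/
theorem lem2 {v x u w₁ w₂ n m : P} {A B : Perm P × Perm P} (hxu : g.perp x u)
    (hvu : g.perp v u) (hA : g.Ind v x u w₂ n m A) (hB : g.Ind v x u w₁ n m B) :
    g.Ind v x w₁ w₂ n m (A * B⁻¹) := by
  obtain ⟨aA, tA, iA⟩ := hA
  obtain ⟨aB, tB, iB⟩ := hB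
  refine ⟨⟨aA.vx, aB.xw₂, aA.xw₂, aA.vn, aA.vm, aB.sw₂, aA.sw₂, aA.sn, aA.sm⟩,
    h.tt_mul tA (h.tt_inv tB), fun y hy hyn => ?_⟩
  obtain ⟨t, ht, hs⟩ := h.label
  have i1 := h.perp_st _ _ aA.vx
  have i2 := h.perp_st _ _ hxu
  have i3 := h.perp_st _ _ hvu
  have i4 := h.perp_st _ _ aA.xw₂
  have i5 := h.perp_st _ _ aB.xw₂
  have i6 := h.perp_st _ _ aA.vm
  have i7 := h.perp_st _ _ aA.vn
  have j1 := aA.sw₂
  have j2 := aB.sw₂
  have j3 := aA.sm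
  have j4 := aA.sn
  have t1 := ht v; have t2 := ht x; have t3 := ht u; have t4 := ht w₁; have t5 := ht n
  have t6 := ht m; have t7 := ht y; have t8 := ht w₂
  have wy : ¬ g.st w₁ y := by rw [hs] at *; omega
  have mw : g.st m w₁ := by rw [hs] at *; omega
  have nw : g.st n w₁ := by rw [hs] at *; omega
  have nu : g.st n u := by rw [hs] at *; omega
  have mu : g.st m u := by rw [hs] at *; omega
  have s1 := h.pr_st wy mw
  have p1 := h.pr_perp wy mw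
  have uy1 : ¬ g.st u (g.pr w₁ m y) := by rw [hs] at *; omega
  have s2 := h.pr_st uy1 nu
  have p2 := h.pr_perp uy1 nu
  have hz : g.st (g.pr u n (g.pr w₁ m y)) x := by rw [hs] at *; omega
  have k0 : g.pr u m (g.pr u n (g.pr w₁ m y)) = g.pr w₁ m y := by
    rw [h.pr_pr uy1 nu, h.pr_self uy1 mu p1]
  have B1 : B.1 (g.pr u n (g.pr w₁ m y)) = y := by
    rw [iB _ hz p2]
    unfold Inc.fm
    rw [k0, h.pr_pr wy mw, h.pr_self wy nw hyn]
  have B2 : B⁻¹.1 y = g.pr u n (g.pr w₁ m y) := by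
    have e : B⁻¹.1 (B.1 (g.pr u n (g.pr w₁ m y))) = g.pr u n (g.pr w₁ m y) :=
      B.1.symm_apply_apply _
    rwa [B1] at e
  change A.1 (B⁻¹.1 y) = g.fm w₁ w₂ n m y
  rw [B2, iA _ hz p2]
  unfold Inc.fm
  rw [k0]

end geo

theorem lemf (h1 : GeomS.{u}) (h2 : TauS.{u}) : LemfS.{u} := by
  intro G _ H K a b c hc v x w₁ w₂ n m ha
  obtain ⟨h, -, hcr⟩ := h1 G H K a b c hc
  have i1 := h.perp_st _ _ ha.vx
  have hvu := h.cr_l _ _ i1
  have hxu := h.cr_r _ _ i1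
  have hu := hcr v x ha.vx
  have c3 := h.cr_st_l i1
  have c4 := h.cr_st_r i1
  set u := (inc H K).cr v x with hudef
  obtain ⟨t, ht, hs⟩ := h.label
  -- every `f(u, w; u, m)` is induced
  have key : ∀ w m : Pt H, (inc H K).perp x w → ¬ (inc H K).st w v → (inc H K).perp v m →
      ¬ (inc H K).st m x → ∃ φ, (inc H K).Ind v x u w u m φ := by
    intro w m hxw hwv hvm hmx
    have i2 := h.perp_st _ _ hxw
    have i3 := h.perp_st _ _ hvm
    have t1 := ht v; have t2 := ht x; have t3 := ht u; have t4 := ht w; have t5 := ht m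
    have um : (inc H K).st u m := by rw [hs] at *; omega
    have wu : (inc H K).st w u := by rw [hs] at *; omega
    have hum : u.1 * m.1 ∈ K := um
    have hwu : w.1 * u.1 ∈ K := wu
    have cvu : v.1 * u.1 = u.1 * v.1 := hvu.1
    have cxu : x.1 * u.1 = u.1 * x.1 := hxu.1
    have cvm : v.1 * m.1 = m.1 * v.1 := hvm.1
    have cxw : x.1 * w.1 = w.1 * x.1 := hxw.1
    have uu : u.1 * u.1 = 1 := u.2.2.1
    have ww : w.1 * w.1 = 1 := w.2.2.1
    refine h2 G H K a b c hc v x u w m ha.vx hu (u.1 * m.1) hum (w.1 * u.1) hwu ?_ ?_ ?_ ?_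
    · rw [← mul_assoc, cvu, mul_assoc, cvm, mul_assoc]
    · rw [← mul_assoc, cxw, mul_assoc, cxu, mul_assoc]
    · rw [mul_inv_rev, ← mul_assoc, mul_inv_cancel, one_mul]
      exact eq_inv_of_mul_eq_one_left ww
    · rw [← mul_assoc, uu, one_mul]
  obtain ⟨A₁, hA₁⟩ := key w₁ m ha.xw₁ ha.sw₁ ha.vm ha.sm
  obtain ⟨B₁, hB₁⟩ := key w₁ n ha.xw₁ ha.sw₁ ha.vn ha.sn
  obtain ⟨A₂, hA₂⟩ := key w₂ m ha.xw₂ ha.sw₂ ha.vm ha.sm
  obtain ⟨B₂, hB₂⟩ := key w₂ n ha.xw₂ ha.sw₂ ha.vn ha.sn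
  exact ⟨_, lem2 h hxu hvu (lem1 h hxu hvu hA₂ hB₂) (lem1 h hxu hvu hA₁ hB₁)⟩

end Pool.Agent.FourGp.H57
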