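import Pool.Agent.Lib.MP_fb3619_al.Iface

/-! LOCF. -/

universe u

namespace Pool.Agent.FourGp.H57

open Pool.Agent.FourGp

/-- Restriction of an involutive automorphism to an invariant subgroup. -/
def resAut {K : Type u} [Group K] (σ : K ≃* K) (hs : ∀ k, σ (σ k) = k) (L : Subgroup K)
    (hL : ∀ l ∈ L, σ l ∈ L) : L ≃* L where
  toFun l := ⟨σ l, hL l l.2⟩
  invFun l := ⟨σ l, hL l l.2⟩
  left_inv l := Subtype.ext (hs l)
  right_inv l := Subtype.ext (hs l)
  map_mul' l m := Subtype.ext (map_mul σ _ _)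

lemma fg_map {K : Type u} [Group K] {S : Subgroup K} (h : S.FG) (f : K →* K) :
    (S.map f).FG := by
  classical
  obtain ⟨T, hT⟩ := h
  exact ⟨T.image f, by rw [Finset.coe_image, ← MonoidHom.map_closure, hT]⟩

theorem locf : LocfS.{u} := by
  intro K _ σ τ hF S hfg hinf
  let L : Subgroup K := S ⊔ S.map σ.toMonoidHom ⊔ (S.map τ.toMonoidHom ⊔
    (S.map τ.toMonoidHom).map σ.toMonoidHom)
  have hSL : S ≤ L := le_sup_left.trans le_sup_left
  have hσ : L.map σ.toMonoidHom ≤ L := by
    simp only [L, Subgroup.map_sup, Subgroup.map_map]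
    have h1 : σ.toMonoidHom.comp σ.toMonoidHom = MonoidHom.id K := by
      ext k; exact hF.ss k
    have h2 : σ.toMonoidHom.comp (σ.toMonoidHom.comp τ.toMonoidHom) = τ.toMonoidHom := by
      ext k; exact hF.ss (τ k)
    rw [h1, h2, Subgroup.map_id]
    refine sup_le (sup_le ?_ ?_) (sup_le ?_ ?_)
    · exact le_sup_right.trans le_sup_left
    · exact le_sup_left.trans le_sup_left
    · exact le_sup_right.trans le_sup_right
    · exact le_sup_left.trans le_sup_right
  have hτ : L.map τ.toMonoidHom ≤ L := by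
    simp only [L, Subgroup.map_sup, Subgroup.map_map]
    have h1 : τ.toMonoidHom.comp τ.toMonoidHom = MonoidHom.id K := by
      ext k; exact hF.tt k
    have h3 : τ.toMonoidHom.comp σ.toMonoidHom = σ.toMonoidHom.comp τ.toMonoidHom := by
      ext k; exact (hF.st k).symm
    have h2 : τ.toMonoidHom.comp (σ.toMonoidHom.comp τ.toMonoidHom) = σ.toMonoidHom := by
      ext k
      change τ (σ (τ k)) = σ k
      rw [hF.st, hF.tt]
    rw [h1, h2, h3, Subgroup.map_id]
    refine sup_le (sup_le ?_ ?_) (sup_le ?_ ?_)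
    · exact le_sup_left.trans le_sup_right
    · exact le_sup_right.trans le_sup_right
    · exact le_sup_left.trans le_sup_left
    · exact le_sup_right.trans le_sup_left
  have hσ' : ∀ l ∈ L, σ l ∈ L := fun l hl => hσ (Subgroup.mem_map_of_mem σ.toMonoidHom hl)
  have hτ' : ∀ l ∈ L, τ l ∈ L := fun l hl => hτ (Subgroup.mem_map_of_mem τ.toMonoidHom hl)
  have hLfg : L.FG :=
    (hfg.sup (fg_map hfg _)).sup ((fg_map hfg _).sup (fg_map (fg_map hfg _) _))
  refine ⟨L, inferInstance, resAut σ hF.ss L hσ', resAut τ hF.tt L hτ', ?_, ?_, ?_⟩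
  · exact
      { ss := fun k => Subtype.ext (hF.ss k)
        tt := fun k => Subtype.ext (hF.tt k)
        st := fun k => Subtype.ext (hF.st k)
        odd := fun k => by
          obtain ⟨n, hn⟩ := hF.odd k
          exact ⟨n, Subtype.ext (by simpa using hn)⟩
        fix := fun k h1 h2 => Subtype.ext
          (hF.fix k (congrArg Subtype.val h1) (congrArg Subtype.val h2)) }
  · exact (Group.fg_iff_subgroup_fg L).2 hLfg
  · exact Infinite.of_injective (Subgroup.inclusion hSL) (Subgroup.inclusion_injective hSL)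

end Pool.Agent.FourGp.H57
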