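import Pool.Agent.Lib.MP_fb3619_al.Iface

/-! NCEN (3.5). -/

universe u

namespace Pool.Agent.FourGp.H57

open Equiv Pool.Agent.FourGp

theorem ncen (h1 : DetS.{u}) : NcenS.{u} := by
  intro P g h v x φ ψ hvx hφ hψ
  refine Subgroup.closure_induction
    (p := fun ψ _ => ∀ y, g.st y x → φ.1 (ψ.1 y) = ψ.1 (φ.1 y)) ?_ ?_ ?_ ?_ hψ
  · rintro ψ ⟨w₁, w₂, n, m, ha, hT, hi⟩
    have k := h1 P g h v x n (φ * ψ) (ψ * φ) hvx (h.tw_mul hφ hT.tw) (h.tw_mul hT.tw hφ)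
      ha.vn ha.sn ?_
    · exact k
    · intro y hy hyn
      change φ.1 (ψ.1 y) = ψ.1 (φ.1 y)
      obtain ⟨t, ht, hs⟩ := h.label
      have i1 := h.perp_st _ _ ha.vx
      have i2 := h.perp_st _ _ ha.xw₁
      have i3 := h.perp_st _ _ ha.xw₂
      have i4 := h.perp_st _ _ ha.vn
      have i5 := h.perp_st _ _ ha.vm
      have i6 := ha.sw₁
      have i7 := ha.sw₂
      have i8 := ha.sn
      have i9 := ha.sm
      have t1 := ht v; have t2 := ht x; have t3 := ht w₁; have t4 := ht w₂; have t5 := ht n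
      have t6 := ht m
      have e1 : ¬ g.st w₁ y := by rw [hs] at *; omega
      have e2 : g.st m w₁ := by rw [hs] at *; omega
      have hn : φ.2 n = n := hφ.lns n ha.vn ha.sn
      have hyn' : g.perp (φ.1 y) n := by
        have := (hφ.inc y n).1 hyn
        rwa [hn] at this
      have hy' : g.st (φ.1 y) x := h.st_trans _ _ _ (h.st_symm _ _ (hφ.tp y)) hy
      rw [hi y hy hyn, hi (φ.1 y) hy' hyn']
      unfold Inc.fm
      have k1 : g.st (g.pr w₁ m y) x := h.st_trans _ _ _ (h.pr_st e1 e2) hy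
      rw [h.tw_pr hφ hvx ha.xw₂ ha.sw₂ ha.vn ha.sn k1,
        h.tw_pr hφ hvx ha.xw₁ ha.sw₁ ha.vm ha.sm hy]
  · intro y _
    rfl
  · intro ψ₁ ψ₂ m1 m2 a b y hy
    have hc := h.nn_col m2
    have hy' : g.st (ψ₂.1 y) x := h.st_trans _ _ _ (h.st_symm _ _ (hc.tp y)) hy
    change φ.1 (ψ₁.1 (ψ₂.1 y)) = ψ₁.1 (ψ₂.1 (φ.1 y))
    rw [a _ hy', b y hy]
  · intro ψ₁ m1 a y hy
    have hc := h.col_inv (h.nn_col m1)
    have hy' : g.st (ψ₁⁻¹.1 y) x := h.st_trans _ _ _ (h.st_symm _ _ (hc.tp y)) hy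
    have k := a _ hy'
    have e : ψ₁.1 (ψ₁⁻¹.1 y) = y := ψ₁.1.apply_symm_apply y
    rw [e] at k
    rw [k]
    exact (ψ₁.1.symm_apply_apply _).symm

end Pool.Agent.FourGp.H57
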