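import Pool.Agent.Lib.MP_fb3619_al.Iface

/-! TCRS (3.6). -/

universe u

namespace Pool.Agent.FourGp.H57

open Equiv Pool.Agent.FourGp

theorem tcrs : TcrsS.{u} := by
  intro P g h v w x φ ψ hvx hwx hvw hφ hψ y hy
  obtain ⟨t, ht, hs⟩ := h.label
  have i1 := h.perp_st _ _ hvx
  have i2 := h.perp_st _ _ hwx
  have iy : ¬ g.st y v := by rw [hs] at *; omega
  have iw : ¬ g.st y w := by rw [hs] at *; omega
  have d1 := h.cr_l _ _ iy
  have d2 := h.cr_r _ _ iy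
  have d3 := h.cr_st_l iy
  have d4 := h.cr_st_r iy
  have f1 := h.cr_l _ _ iw
  have f2 := h.cr_r _ _ iw
  have f3 := h.cr_st_l iw
  have f4 := h.cr_st_r iw
  set l₁ := g.cr y v with hl₁
  set l₂ := g.cr y w with hl₂
  have t1 := ht v; have t2 := ht x; have t3 := ht w; have t4 := ht l₁; have t5 := ht l₂
  have t6 := ht y
  have e1 : ¬ g.st l₁ l₂ := by rw [hs] at *; omega
  have hyl : y = g.cr l₁ l₂ := h.uniq _ _ _ e1 (h.perp_symm _ _ d1) (h.perp_symm _ _ f1)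
  have pv : ψ.1 v = v := hψ.pts v (h.perp_symm _ _ hvx)
  have pw : φ.1 w = w := hφ.pts w (h.perp_symm _ _ hwx)
  have q1 : φ.2 l₁ = l₁ := hφ.lns _ d2
  have q2 : ψ.2 l₂ = l₂ := hψ.lns _ f2
  have p1 : g.perp w (φ.2 l₂) := by
    have := (hφ.inc w l₂).1 f2
    rwa [pw] at this
  have p2 : g.perp v (ψ.2 l₁) := by
    have := (hψ.inc v l₁).1 d2
    rwa [pv] at this
  have q3 : φ.2 (ψ.2 l₁) = ψ.2 l₁ := hφ.lns _ p2
  have q4 : ψ.2 (φ.2 l₂) = φ.2 l₂ := hψ.lns _ p1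
  have s1 := hψ.tl l₁
  have s2 := hφ.tl l₂
  have e2 : ¬ g.st (ψ.2 l₁) l₂ := by rw [hs] at *; omega
  have e3 : ¬ g.st l₁ (φ.2 l₂) := by rw [hs] at *; omega
  have r1 : ψ.1 y = g.cr (ψ.2 l₁) l₂ := by
    have := h.col_cr' hψ.toCol e1
    rwa [← hyl, q2] at this
  have r2 : φ.1 y = g.cr l₁ (φ.2 l₂) := by
    have := h.col_cr' hφ.toCol e1
    rwa [← hyl, q1] at this
  rw [r1, r2, h.col_cr' hφ.toCol e2, h.col_cr' hψ.toCol e3, q3, q4]

end Pool.Agent.FourGp.H57
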