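import Pool.Agent.Lib.MP_fb3619_al.Iface

/-! ZORN. -/

universe u

namespace Pool.Agent.FourGp.H57

open Pool.Agent.FourGp

lemma finset_chain {K : Type u} [Group K] {c : Set (Subgroup K)} (hc : IsChain (· ≤ ·) c)
    {y : Subgroup K} (hy : y ∈ c) (T : Finset K) (hT : ∀ t ∈ T, ∃ M ∈ c, t ∈ M) :
    ∃ M ∈ c, ∀ t ∈ T, t ∈ M := by
  classical
  induction T using Finset.induction_on with
  | empty => exact ⟨y, hy, by simp⟩
  | insert t T ht ih =>
    obtain ⟨M, hM, h1⟩ := ih (fun s hs => hT s (Finset.mem_insert_of_mem hs))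
    obtain ⟨M', hM', h2⟩ := hT t (Finset.mem_insert_self _ _)
    rcases hc.total hM hM' with h | h
    · refine ⟨M', hM', fun s hs => ?_⟩
      rcases Finset.mem_insert.1 hs with rfl | hs
      · exact h2
      · exact h (h1 s hs)
    · refine ⟨M, hM, fun s hs => ?_⟩
      rcases Finset.mem_insert.1 hs with rfl | hs
      · exact h h2
      · exact h1 s hs

theorem zorn (hq : QuofS.{u}) : ZornS.{u} := by
  intro K _ σ τ hF hfg hinf
  let S : Set (Subgroup K) :=
    {N | N.Normal ∧ (∀ n ∈ N, σ n ∈ N) ∧ (∀ n ∈ N, τ n ∈ N) ∧ N.index = 0}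
  have hbot : (⊥ : Subgroup K) ∈ S := by
    refine ⟨inferInstance, ?_, ?_, ?_⟩
    · intro n hn; rw [Subgroup.mem_bot] at hn ⊢; rw [hn, map_one]
    · intro n hn; rw [Subgroup.mem_bot] at hn ⊢; rw [hn, map_one]
    · rw [Subgroup.index_bot]; exact Nat.card_eq_zero_of_infinite
  obtain ⟨N, -, hN⟩ := zorn_le_nonempty₀ S (by
    intro c hcS hc y hy
    have hdir : DirectedOn (· ≤ ·) c := hc.directedOn
    have hne : c.Nonempty := ⟨y, hy⟩
    refine ⟨sSup c, ⟨?_, ?_, ?_, ?_⟩, fun z hz => le_sSup hz⟩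
    · constructor
      intro n hn g
      rw [Subgroup.mem_sSup_of_directedOn hne hdir] at hn ⊢
      obtain ⟨M, hM, h⟩ := hn
      exact ⟨M, hM, (hcS hM).1.conj_mem n h g⟩
    · intro n hn
      rw [Subgroup.mem_sSup_of_directedOn hne hdir] at hn ⊢
      obtain ⟨M, hM, h⟩ := hn
      exact ⟨M, hM, (hcS hM).2.1 n h⟩
    · intro n hn
      rw [Subgroup.mem_sSup_of_directedOn hne hdir] at hn ⊢
      obtain ⟨M, hM, h⟩ := hn
      exact ⟨M, hM, (hcS hM).2.2.1 n h⟩
    · by_contra hidx
      haveI : (sSup c).FiniteIndex := ⟨hidx⟩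
      have h1 : Group.FG (sSup c : Subgroup K) := inferInstance
      have h2 : (sSup c).FG := (Group.fg_iff_subgroup_fg _).1 h1
      obtain ⟨T, hT⟩ := h2
      obtain ⟨M, hM, hTM⟩ := finset_chain hc hy T (by
        intro t ht
        have : t ∈ sSup c := by rw [← hT]; exact Subgroup.subset_closure ht
        rw [Subgroup.mem_sSup_of_directedOn hne hdir] at this
        exact this)
      have h3 : sSup c ≤ M := by
        rw [← hT, Subgroup.closure_le]; exact hTM
      have h4 : sSup c = M := le_antisymm h3 (le_sSup hM)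
      rw [h4] at hidx
      exact hidx (hcS hM).2.2.2) ⊥ hbot
  obtain ⟨hNn, hNσ, hNτ, hNi⟩ := hN.prop
  haveI := hNn
  obtain ⟨σ', τ', hF', hσ', hτ'⟩ := hq K σ τ hF N hNσ hNτ
  refine ⟨K ⧸ N, inferInstance, σ', τ', ?_⟩
  refine { toFixP := hF', fg := inferInstance, inf := ?_, ji := ?_ }
  · exact Subgroup.index_eq_zero_iff_infinite.1 hNi
  · intro M hM hMσ hMτ hMb hidx
    apply hMb
    have hle : N ≤ M.comap (QuotientGroup.mk' N) := by
      intro n hn
      rw [Subgroup.mem_comap, QuotientGroup.mk'_apply, (QuotientGroup.eq_one_iff n).2 hn]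
      exact M.one_mem
    have hmem : M.comap (QuotientGroup.mk' N) ∈ S := by
      refine ⟨hM.comap _, ?_, ?_, ?_⟩
      · intro n hn
        rw [Subgroup.mem_comap, QuotientGroup.mk'_apply] at hn ⊢
        rw [← hσ']; exact hMσ _ hn
      · intro n hn
        rw [Subgroup.mem_comap, QuotientGroup.mk'_apply] at hn ⊢
        rw [← hτ']; exact hMτ _ hn
      · rw [Subgroup.index_comap_of_surjective _ (QuotientGroup.mk'_surjective N)]; exact hidx
    have heq : M.comap (QuotientGroup.mk' N) = N := le_antisymm (hN.le_of_ge hmem hle) hle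
    rw [eq_bot_iff]
    intro m hm
    obtain ⟨k, rfl⟩ := QuotientGroup.mk'_surjective N m
    have : k ∈ M.comap (QuotientGroup.mk' N) := hm
    rw [heq] at this
    rw [Subgroup.mem_bot, QuotientGroup.mk'_apply]
    exact (QuotientGroup.eq_one_iff k).2 this

end Pool.Agent.FourGp.H57
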