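import Pool.Agent.Lib.MP_fb3619_al.Base2
import Pool.Agent.Lib.MP_fb3619_al.H57.Lemf

/-! MULA: additivity in the first variable. -/

universe u

namespace Pool.Agent.FourGp.H57

open Equiv Pool.Agent.FourGp

theorem mula : MulaS.{u} := by
  intro G _ H K a b c h α α' β
  have hg := h.geo
  set w : Pt H := J.ap h.rot.rot (J.jinv h.rot.rot β) with hw
  have hadm : ∀ x y : J h.rot, (inc H K).Adm h.pa h.pb h.pc w (J.bp h.rot x)
      (J.bp h.rot y) := by
    intro x y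
    have := J.adm h 0 (J.jinv h.rot.rot β) x y
    rwa [show J.ap h.rot.rot 0 = h.pc from J.ap_zero h.rot.rot] at this
  choose φ hφ using fun x y => h.lemF _ _ _ _ _ _ (hadm x y)
  have hN : ∀ x y, φ x y ∈ (inc H K).Nn h.pa h.pb := fun x y =>
    Subgroup.subset_closure ⟨_, _, _, _, hφ x y⟩
  let T : J h.rot → J h.rot → J h := fun x y =>
    J.ofb h ((φ x y).1 (J.bp h 0)) (J.trl_sim h (hN x y) (J.sim_b h 0))
      (J.trl_perp h (hN x y) (J.perp_bc h 0))
  have Tb : ∀ x y, (φ x y).1 h.pb = J.bp h (T x y) := by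
    intro x y
    simp only [T]
    rw [J.bp_ofb, J.bp_zero]
  have Tf : ∀ x y (γ : J h), (φ x y).1 (J.bp h γ) = J.bp h (T x y + γ) := fun x y γ =>
    J.trl_b h (hN x y) (Tb x y) γ
  have z0 : J.bp h.rot 0 = h.pc := J.bp_zero h.rot
  -- cocycle
  have coc : ∀ x y, T 0 y = T x y + T 0 x := by
    intro x y
    apply J.bp_inj h
    rw [← Tf, ← Tb, ← Tb]
    have hA := hφ 0 y
    have hB := hφ 0 x
    rw [z0] at hA hB
    have hC := lem1 hg h.pbc h.pac hA hB
    have hD := hφ x y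
    have k := part1_det _ _ hg h.pa h.pb (J.bp h.rot x) (φ x y) (φ 0 y * (φ 0 x)⁻¹) h.pab
      hD.2.1.tw hC.2.1.tw hD.1.vn hD.1.sn ?_ ((φ 0 x).1 h.pb) ?_
    · rw [k]
      change (φ 0 y).1 h.pb = (φ 0 y).1 ((φ 0 x)⁻¹.1 ((φ 0 x).1 h.pb))
      congr 1
      exact ((φ 0 x).1.symm_apply_apply _).symm
    · intro z hz hzn
      rw [hD.2.2 z hz hzn, hC.2.2 z hz hzn]
    · exact hg.st_symm _ _ ((hg.nn_col (hN 0 x)).tp _)
  -- invariance
  have inv : ∀ x y z, T (x + y) (x + z) = T y z := by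
    intro x y z
    obtain ⟨g, hgN, g1, -⟩ := J.exists_trl' h.rot x
    have gT := h.rot.geo.nn_tt hgN
    have gy := J.trl_b' h.rot hgN g1 y
    have gz := J.trl_b' h.rot hgN g1 z
    apply J.bp_inj h
    rw [← Tb, ← Tb]
    have hD := hφ (x + y) (x + z)
    rw [← gy, ← gz] at hD
    exact (part1_bilb _ _ hg h.pa h.pb h.pc _ _ _ _ g _ _ h.pab h.pbc h.pac gT (hφ y z) hD h.pb
      (hg.st_refl _)).symm
  have hmul : ∀ x : J h.rot, J.mulJ h x β = T 0 x := by
    intro x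
    apply J.bp_inj h
    rw [J.bp_mulJ, ← Tb]
    have hD := hφ 0 x
    rw [hD.2.2 h.pb (hg.st_refl _) (by rw [z0]; exact h.pbc), z0]
  rw [hmul, hmul, hmul, coc α (α + α')]
  have e2 := inv α 0 α'
  rw [add_zero] at e2
  rw [e2, add_comm]

end Pool.Agent.FourGp.H57
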