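import Pool.Agent.Lib.MP_fb3619_al.Base2

/-! MULB: additivity in the second variable. -/

universe u

namespace Pool.Agent.FourGp.H57

open Equiv Pool.Agent.FourGp

theorem mulb (h1 : NegS.{u}) : MulbS.{u} := by
  intro G _ H K a b c h α β β'
  have hg := h.geo
  set m : Pt H := J.bp h.rot α with hm
  -- admissible data
  have hadm : ∀ x y : J h.rot.rot, (inc H K).Adm h.pa h.pb (J.ap h.rot.rot x)
      (J.ap h.rot.rot y) h.pc m := by
    intro x y
    have := J.adm h x y 0 α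
    rwa [show J.bp h.rot 0 = h.pc from J.bp_zero h.rot] at this
  -- the translations
  let t : J h.rot.rot → J h.rot.rot → J h := fun x y =>
    J.ofb h ((inc H K).fm (J.ap h.rot.rot x) (J.ap h.rot.rot y) h.pc m (J.bp h 0))
      (J.fm_sim h (hadm x y) 0) (J.fm_perp h (hadm x y) 0)
  have tb : ∀ x y, J.bp h (t x y) =
      (inc H K).fm (J.ap h.rot.rot x) (J.ap h.rot.rot y) h.pc m h.pb := by
    intro x y
    simp only [t]
    rw [J.bp_ofb, J.bp_zero]
  have tf : ∀ x y (γ : J h), (inc H K).fm (J.ap h.rot.rot x) (J.ap h.rot.rot y) h.pc m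
      (J.bp h γ) = J.bp h (t x y + γ) := by
    intro x y γ
    obtain ⟨φ, hφ⟩ := h.lemF _ _ _ _ _ _ (hadm x y)
    have hN : φ ∈ (inc H K).Nn h.pa h.pb := Subgroup.subset_closure ⟨_, _, _, _, hφ⟩
    have e1 : φ.1 h.pb = J.bp h (t x y) := by
      rw [tb]
      exact hφ.2.2 h.pb (hg.st_refl _) h.pbc
    rw [← J.trl_b h hN e1 γ]
    exact (hφ.2.2 _ (hg.st_symm _ _ (J.st_b h γ)) (J.perp_bc h γ)).symm
  -- cocycle
  have coc : ∀ x y z, t x z = t y z + t x y := by
    intro x y z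
    apply J.bp_inj h
    rw [← tf y z, tb x y, tb x z]
    obtain ⟨l, hl, hs⟩ := hg.label
    have ax := hadm x y
    have az := hadm y z
    have i1 := hg.perp_st _ _ ax.vx
    have i2 := hg.perp_st _ _ ax.xw₁
    have i3 := hg.perp_st _ _ ax.xw₂
    have i4 := hg.perp_st _ _ ax.vn
    have i5 := hg.perp_st _ _ ax.vm
    have i6 := ax.sw₁
    have i7 := ax.sw₂
    have i8 := ax.sn
    have i9 := ax.sm
    have t1 := hl h.pa; have t2 := hl h.pb; have t3 := hl (J.ap h.rot.rot x)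
    have t4 := hl (J.ap h.rot.rot y); have t5 := hl h.pc; have t6 := hl m
    have e1 : ¬ (inc H K).st (J.ap h.rot.rot x) h.pb := by rw [hs] at *; omega
    have e2 : (inc H K).st m (J.ap h.rot.rot x) := by rw [hs] at *; omega
    have e3 := hg.pr_st e1 e2
    have p3 := hg.pr_perp e1 e2
    have e4 : ¬ (inc H K).st (J.ap h.rot.rot y)
        ((inc H K).pr (J.ap h.rot.rot x) m h.pb) := by rw [hs] at *; omega
    have e5 : (inc H K).st h.pc (J.ap h.rot.rot y) := by rw [hs] at *; omega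
    have e6 : (inc H K).st m (J.ap h.rot.rot y) := by rw [hs] at *; omega
    unfold Inc.fm
    rw [hg.pr_pr e4 e5, hg.pr_self e4 e6 p3]
  -- invariance
  have inv : ∀ x y z, t (x + y) (x + z) = t y z := by
    intro x y z
    obtain ⟨g, hN, g1, -⟩ := J.exists_trl' h.rot.rot x
    have gT := h.rot.rot.geo.nn_tt hN
    have gy := J.trl_a h.rot.rot hN g1 y
    have gz := J.trl_a h.rot.rot hN g1 z
    apply J.bp_inj h
    rw [tb, tb, ← gy, ← gz]
    have ay := hadm y z
    have s1 : (inc H K).st (J.ap h.rot.rot y) h.pc := hg.st_symm _ _ (J.st_a h.rot.rot y)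
    have s2 : (inc H K).st (J.ap h.rot.rot z) h.pc := hg.st_symm _ _ (J.st_a h.rot.rot z)
    have s3 : (inc H K).st m h.pc := hg.st_symm _ _ (J.st_b h.rot α)
    exact part1_bila _ _ hg h.pa h.pb h.pc _ _ m h.pb g h.pab h.pbc h.pac gT ay.xw₁ s1 ay.xw₂ s2
      ay.vm s3 (hg.st_refl _) h.pbc
  have hmul : ∀ x : J h.rot.rot, J.mulJ h α x = t 0 (-x) := by
    intro x
    apply J.bp_inj h
    rw [J.bp_mulJ, tb]
    have e1 : J.jinv h.rot.rot x = -x := by
      apply J.ext
      rw [(h1 G H K _ _ _ h.rot.rot).1 x]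
      rfl
    rw [e1, show J.ap h.rot.rot 0 = h.pc from J.ap_zero h.rot.rot]
  rw [hmul, hmul, hmul, neg_add, coc 0 (-β) (-β + -β')]
  have e2 := inv (-β) 0 (-β')
  rw [add_zero] at e2
  rw [e2, add_comm]

end Pool.Agent.FourGp.H57
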