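import Pool.Agent.Lib.MP_fb3619_al.Base2

/-! MULF: the product and the group structure. -/

universe u

namespace Pool.Agent.FourGp.H57

open Equiv Pool.Agent.FourGp

section grp

variable {G : Type u} [Group G]

/-- Conjugation by an involution as a homomorphism. -/
theorem cmul {z : G} (hz : z * z = 1) (x y : G) : z * (x * y) * z = z * x * z * (z * y * z) := by
  calc z * (x * y) * z = z * x * 1 * y * z := by group
    _ = z * x * (z * z) * y * z := by rw [hz]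
    _ = z * x * z * (z * y * z) := by group

theorem cinv {z : G} (hz : z * z = 1) (x : G) : z * x⁻¹ * z = (z * x * z)⁻¹ := by
  have e : z⁻¹ = z := inv_eq_of_mul_eq_one_right hz
  rw [mul_inv_rev, mul_inv_rev, e, mul_assoc]

end grp

theorem mulf : MulfS.{u} := by
  intro G _ H K a b c h α β
  have hg := h.geo
  have hα : α.1 * a = a * α.1 := α.2.2
  have hβ : β.1 * b = b * β.1 := β.2.2
  -- conjugations
  have bα : b * α.1 * b = α.1⁻¹ := h.rot.inv_a α.memK hα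
  have cα : c * α.1 * c = α.1⁻¹ := h.rot.inv_b α.memK hα
  have cβ : c * β.1 * c = β.1⁻¹ := h.rot.rot.inv_a β.memK hβ
  have bβ : b * β.1 * b = β.1 := by
    rw [← hβ, mul_assoc, h.hbb, mul_one]
  set γ := J.mulJ h α β with hγdef
  have key : ∀ g ∈ K, g * c = c * g → (α.1 * β.1 = g * β.1 * α.1 * g ↔
      β.1 * α.1⁻¹ = g * (α.1⁻¹ * β.1 * g)) := by
    intro g hg' hgc
    have bg : b * g * b = g⁻¹ := h.inv_b hg' hgc
    constructor
    · intro e
      have e1 : b * (α.1 * β.1) * b = b * (g * β.1 * α.1 * g) * b := by rw [e]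
      rw [cmul h.hbb, cmul h.hbb, cmul h.hbb, cmul h.hbb, bα, bβ, bg] at e1
      have : g * (α.1⁻¹ * β.1) * g = g * (g⁻¹ * β.1 * α.1⁻¹ * g⁻¹) * g := by rw [e1]
      calc β.1 * α.1⁻¹ = g * (g⁻¹ * β.1 * α.1⁻¹ * g⁻¹) * g := by group
        _ = g * (α.1⁻¹ * β.1) * g := this.symm
        _ = g * (α.1⁻¹ * β.1 * g) := by group
    · intro e
      have e1 : b * (β.1 * α.1⁻¹) * b = b * (g * (α.1⁻¹ * β.1 * g)) * b := by rw [e]
      rw [cmul h.hbb, cmul h.hbb, cmul h.hbb, cmul h.hbb, cinv h.hbb, bα, bβ, bg, inv_inv] at e1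
      calc α.1 * β.1 = g * (g⁻¹ * (α.1 * β.1 * g⁻¹)) * g := by group
        _ = g * (β.1 * α.1) * g := by rw [← e1]
        _ = g * β.1 * α.1 * g := by group
  -- the elements given by the geometry
  have first : α.1 * β.1 = γ.1 * β.1 * α.1 * γ.1 := by
    have γK := γ.memK
    have γc : γ.1 * c = c * γ.1 := γ.2.2
    have bγ : b * γ.1 * b = γ.1⁻¹ := h.inv_b γK γc
    have cγ : c * γ.1 * c = γ.1 := by rw [← γc, mul_assoc, h.hcc, mul_one]
    set w : Pt H := J.ap h.rot.rot (J.jinv h.rot.rot β) with hw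
    have hZ : J.bp h γ = (inc H K).fm h.pc w h.pc (J.bp h.rot α) h.pb := J.bp_mulJ h α β
    set m : Pt H := J.bp h.rot α with hm
    have hadm := J.adm' h (J.jinv h.rot.rot β) α
    rw [← hw, ← hm] at hadm
    -- `X`
    have e1 : (inc H K).cr h.pb h.pc = h.pa := by
      apply Subtype.ext
      rw [h.cr_val h.pbc]
      exact h.bc
    have pam : (inc H K).perp h.pa m := hadm.vm
    set X : Pt H := (inc H K).cr h.pa m with hX
    have X1 : X.1 = b * α.1 := by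
      rw [hX, h.cr_val pam]
      change a * (c * α.1) = b * α.1
      rw [← mul_assoc, h.ac]
    have hfm : J.bp h γ = (inc H K).cr ((inc H K).cr X w) h.pc := by
      rw [hZ]
      unfold Inc.fm Inc.pr
      rw [e1]
    -- types
    obtain ⟨t, ht, hs⟩ := hg.label
    have i1 := hg.perp_st _ _ hadm.vx
    have i2 := hg.perp_st _ _ hadm.xw₂
    have i3 := hadm.sw₂
    have i4 := hg.perp_st _ _ hadm.vm
    have i5 := hadm.sm
    have x1 := hg.cr_st_l i4
    have x2 := hg.cr_st_r i4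
    rw [← hX] at x1 x2
    have i6 := hg.perp_st _ _ h.pac
    have i7 := hg.perp_st _ _ h.pbc
    have t1 := ht h.pa; have t2 := ht h.pb; have t3 := ht h.pc; have t4 := ht w; have t5 := ht m
    have t6 := ht X
    have Xw : ¬ (inc H K).st X w := by rw [hs] at *; omega
    have y1 := hg.cr_l _ _ Xw
    have y2 := hg.cr_r _ _ Xw
    have y3 := hg.cr_st_l Xw
    have y4 := hg.cr_st_r Xw
    set n₁ : Pt H := (inc H K).cr X w with hn₁
    have t7 := ht n₁
    have nc : ¬ (inc H K).st n₁ h.pc := by rw [hs] at *; omega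
    have z1 := hg.cr_l _ _ nc
    have z2 := hg.cr_r _ _ nc
    rw [← hfm] at z1 z2
    have XZ : (inc H K).st X (J.bp h γ) := by
      have z3 := J.st_b h γ
      rw [hs] at *; omega
    have XZK : X.1 * (J.bp h γ).1 ∈ K := XZ
    -- `Y` inverts `X Z`
    have hcfg := part1_reba G H K a b c h n₁ w (hg.perp_symm _ _ y2)
    have hinv := part1_invt G H K n₁.1 w.1 _ hcfg (X.1 * (J.bp h γ).1) XZK ?_
    · have XX : X.1 * X.1 = 1 := X.2.2.1
      have ZZ : (J.bp h γ).1 * (J.bp h γ).1 = 1 := (J.bp h γ).2.2.1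
      have YY : w.1 * w.1 = 1 := w.2.2.1
      have Xi : X.1⁻¹ = X.1 := inv_eq_of_mul_eq_one_right XX
      have Zi : (J.bp h γ).1⁻¹ = (J.bp h γ).1 := inv_eq_of_mul_eq_one_right ZZ
      have hinv2 : w.1 * ((J.bp h γ).1 * X.1) * w.1 = X.1 * (J.bp h γ).1 := by
        have := cinv YY (X.1 * (J.bp h γ).1)
        rw [hinv, inv_inv, mul_inv_rev, Xi, Zi] at this
        exact this
      have sq : X.1 * w.1 * (J.bp h γ).1 * (X.1 * w.1 * (J.bp h γ).1) = 1 := by
        calc X.1 * w.1 * (J.bp h γ).1 * (X.1 * w.1 * (J.bp h γ).1)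
            = X.1 * (w.1 * ((J.bp h γ).1 * X.1) * w.1) * (J.bp h γ).1 := by group
          _ = X.1 * (X.1 * (J.bp h γ).1) * (J.bp h γ).1 := by rw [hinv2]
          _ = (X.1 * X.1) * ((J.bp h γ).1 * (J.bp h γ).1) := by group
          _ = 1 := by rw [XX, ZZ, one_mul]
      have w1 : w.1 = c * β.1⁻¹ := rfl
      have Z1 : (J.bp h γ).1 = b * γ.1 := rfl
      have hβ' : β.1⁻¹ * b = b * β.1⁻¹ := by
        calc β.1⁻¹ * b = β.1⁻¹ * (b * β.1) * β.1⁻¹ := by group
          _ = β.1⁻¹ * (β.1 * b) * β.1⁻¹ := by rw [hβ]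
          _ = b * β.1⁻¹ := by group
      have e2 : X.1 * w.1 * (J.bp h γ).1 = c * (α.1 * β.1⁻¹ * γ.1) := by
        rw [X1, w1, Z1]
        calc b * α.1 * (c * β.1⁻¹) * (b * γ.1) = b * α.1 * c * (β.1⁻¹ * b) * γ.1 := by group
          _ = b * α.1 * c * (b * β.1⁻¹) * γ.1 := by rw [hβ']
          _ = b * α.1 * (c * b) * β.1⁻¹ * γ.1 := by group
          _ = b * (α.1 * a) * β.1⁻¹ * γ.1 := by rw [h.cb, mul_assoc b α.1 a]
          _ = (b * a) * α.1 * β.1⁻¹ * γ.1 := by rw [hα]; group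
          _ = c * (α.1 * β.1⁻¹ * γ.1) := by rw [h.ba]; group
      rw [e2] at sq
      have e3 : c * (α.1 * β.1⁻¹ * γ.1) * c * (α.1 * β.1⁻¹ * γ.1) = 1 := by
        rw [← sq]; group
      rw [cmul h.hcc, cmul h.hcc, cinv h.hcc, cα, cβ, cγ, inv_inv] at e3
      refine (key γ.1 γK γc).2 ?_
      have e4 : α.1⁻¹ * β.1 * γ.1 = (α.1 * β.1⁻¹ * γ.1)⁻¹ := eq_inv_of_mul_eq_one_left e3
      rw [e4]
      group
    · have c1 : n₁.1 * X.1 = X.1 * n₁.1 := (hg.perp_symm _ _ y1).1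
      have c2 : n₁.1 * (J.bp h γ).1 = (J.bp h γ).1 * n₁.1 := z1.1
      rw [← mul_assoc, c1, mul_assoc, c2, mul_assoc]
  -- uniqueness
  have uniq : ∀ g ∈ K, g * c = c * g → α.1 * β.1 = g * β.1 * α.1 * g → g = γ.1 := by
    have fin : ∀ g ∈ K, g * c = c * g → α.1 * β.1 = g * β.1 * α.1 * g →
        α.1⁻¹ * β.1 * g ∈ K ∧ c * (α.1⁻¹ * β.1 * g) * c = (α.1⁻¹ * β.1 * g)⁻¹ ∧
        β.1 * α.1⁻¹ = g * (α.1⁻¹ * β.1 * g) := by
      intro g hg' hgc e
      have e1 := (key g hg' hgc).1 e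
      have cg : c * g * c = g := by rw [← hgc, mul_assoc, h.hcc, mul_one]
      refine ⟨K.mul_mem (K.mul_mem (K.inv_mem α.memK) β.memK) hg', ?_, e1⟩
      have e2 : c * (β.1 * α.1⁻¹) * c = c * (g * (α.1⁻¹ * β.1 * g)) * c := by rw [← e1]
      rw [cmul h.hcc, cmul h.hcc, cinv h.hcc, cα, cβ, cg, inv_inv] at e2
      calc c * (α.1⁻¹ * β.1 * g) * c
          = g⁻¹ * (g * (c * (α.1⁻¹ * β.1 * g) * c)) := by group
        _ = g⁻¹ * (β.1⁻¹ * α.1) := by rw [← e2]
        _ = (α.1⁻¹ * β.1 * g)⁻¹ := by group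
    intro g hg' hgc e
    obtain ⟨w, hw, s, hs, -, -, -, hun⟩ := part1_deco G H K a b c h h.pc (β.1 * α.1⁻¹)
      (K.mul_mem β.memK (K.inv_mem α.memK))
    obtain ⟨a1, a2, a3⟩ := fin g hg' hgc e
    obtain ⟨b1, b2, b3⟩ := fin γ.1 γ.memK γ.2.2 first
    rw [hun g hg' _ a1 hgc a2 a3, hun γ.1 γ.memK _ b1 γ.2.2 b2 b3]
  refine ⟨first, uniq, ?_, ?_⟩
  · intro e
    have e1 : γ.1 = 1 := by rw [e]; rfl
    rw [e1, one_mul, mul_one] at first
    exact first
  · intro e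
    have := uniq 1 K.one_mem (by rw [one_mul, mul_one]) (by rw [one_mul, mul_one]; exact e)
    apply J.ext
    rw [← this]
    rfl

end Pool.Agent.FourGp.H57
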